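import Pool.Agent.Helper79.GL4.GoalsA

/-!
# TRA: the translation property
-/

set_option linter.unusedVariables false

namespace GL4

open Module Submodule

namespace TraAux

variable {F : Type} [Field F] {V : Type} [AddCommGroup V] [Module F V]

open Classical in
/-- indicator of `U ≤ H` -/
noncomputable def e (U H : Submodule F V) : ℤ := if U ≤ H then 1 else 0

theorem e_mul (U W H : Submodule F V) : e U H * e W H = e (U ⊔ W) H := by
  unfold e
  by_cases h1 : U ≤ H <;> by_cases h2 : W ≤ H <;> simp [h1, h2]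

theorem e_bot (H : Submodule F V) : e ⊥ H = 1 := by simp [e]

theorem e_sq (U H : Submodule F V) : e U H * e U H = e U H := by
  rw [e_mul, sup_idem]

variable [Finite F] [FiniteDimensional F V]

theorem sum_e (hys : Finset (Submodule F V)) (hhys : ∀ H, H ∈ hys ↔ Hy H) (U : Submodule F V) :
    ∑ H ∈ hys, e U H = (br (Nat.card F) (finrank F V - finrank F U) : ℤ) := by
  classical
  rw [← card_hys_ge U]
  unfold e
  rw [Finset.sum_ite, Finset.sum_const_zero, add_zero, Finset.sum_const, nsmul_eq_mul, mul_one]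
  congr 1
  rw [← Nat.card_eq_finsetCard]
  refine Nat.card_congr (Equiv.subtypeEquivRight fun H => ?_)
  rw [Finset.mem_filter, hhys]

end TraAux

open TraAux in
theorem tra : TRA := by
  classical
  intro F _ _ V _ _ _ G x hx hG y z hy hz hyx hzx hzl
  have _ : Fintype (Submodule F V) := Fintype.ofFinite _
  set q : ℕ := Nat.card F with hq
  have hq2 : 2 ≤ q := Finite.one_lt_card
  set hys : Finset (Submodule F V) := Finset.univ.filter (fun H => Hy H) with hhys
  have hmem : ∀ H, H ∈ hys ↔ Hy H := fun H => by simp [hhys]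
  -- dimension
  have hln : Ln (x ⊔ y) := ln_sup hx hy (Ne.symm hyx)
  have hn : 2 ≤ finrank F V := by
    have := Submodule.finrank_le (x ⊔ y)
    rw [hln] at this
    exact this
  obtain ⟨m, hm⟩ : ∃ m, finrank F V = m + 2 := ⟨finrank F V - 2, by omega⟩
  -- the orbit
  set O : Finset (Submodule F V) :=
    Finset.univ.filter (fun w => ∃ g ∈ G, im g x = x ∧ im g y = w) with hO
  have hOmem : ∀ w, w ∈ O ↔ ∃ g ∈ G, im g x = x ∧ im g y = w := fun w => by simp [hO]
  have hOpt : ∀ w ∈ O, Pt w ∧ w ≠ x := by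
    intro w hw
    obtain ⟨g, hg, hgx, hgy⟩ := (hOmem w).1 hw
    refine ⟨hgy ▸ hy.im, fun h => hyx ?_⟩
    rw [← im_inj g, hgx, hgy, h]
  have hyO : y ∈ O := (hOmem y).2 ⟨1, G.one_mem, im_one x, im_one y⟩
  have hOinv : ∀ g ∈ G, im g x = x → ∀ w, w ∈ O → im g w ∈ O := by
    intro g hg hgx w hw
    obtain ⟨k, hk, hkx, hky⟩ := (hOmem w).1 hw
    exact (hOmem _).2 ⟨g * k, G.mul_mem hg hk, by rw [im_mul, hkx, hgx], by rw [im_mul, hky]⟩
  -- the function a
  set a : Submodule F V → ℤ := fun H => ∑ w ∈ O, (1 - e w H) with ha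
  have hconst : ∀ H H', Hy H → Hy H' → ¬ x ≤ H → ¬ x ≤ H' → a H = a H' := by
    intro H H' hH hH' hxH hxH'
    obtain ⟨g, hg, hgx, hgH⟩ := hG H H' hH hH' hxH hxH'
    simp only [ha]
    refine Finset.sum_bij' (fun w _ => im g w) (fun w _ => im g⁻¹ w)
      (fun w hw => hOinv g hg hgx w hw)
      (fun w hw => hOinv g⁻¹ (G.inv_mem hg) (im_inv_of_eq hgx) w hw)
      (fun w _ => im_inv_im g w) (fun w _ => im_im_inv g w) ?_
    intro w hw
    unfold e
    rw [← hgH, im_le_im_iff]
  -- there is a hyperplane not containing x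
  obtain ⟨H0, hH0, -, hxH0⟩ := exists_hy_not_ge (T := (⊥ : Submodule F V)) (U := x)
    (fun h => hx.ne_bot (le_bot_iff.1 h))
  set κ : ℤ := a H0 with hκ
  have haκ : ∀ H ∈ hys, (1 - e x H) * a H = (1 - e x H) * κ ∧
      (1 - e x H) * (a H * a H) = (1 - e x H) * (κ * κ) := by
    intro H hH
    by_cases h : x ≤ H
    · simp [e, h]
    · have := hconst H H0 ((hmem H).1 hH) hH0 h hxH0
      rw [this]
      exact ⟨rfl, rfl⟩
  have hS := fun U : Submodule F V => sum_e hys hmem U
  have hr0 : finrank F (⊥ : Submodule F V) = 0 := finrank_bot F V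
  -- sums
  have s0 : ∑ H ∈ hys, (1 : ℤ) = br q (m + 2) := by
    have := hS ⊥
    simp only [e_bot] at this
    rw [this, hr0, hm]
    rfl
  have s1 : ∀ w : Submodule F V, Pt w → ∑ H ∈ hys, e w H = br q (m + 1) := by
    intro w hw
    rw [hS w, hw, hm]
    rfl
  have s2 : ∀ w : Submodule F V, Ln w → ∑ H ∈ hys, e w H = br q m := by
    intro w hw
    rw [hS w, hw, hm]
    rfl
  have b1 : (br q (m + 1) : ℤ) = br q m + (q : ℤ) ^ m := by rw [br_succ]; push_cast; ring
  have b2 : (br q (m + 2) : ℤ) = br q m + (q : ℤ) ^ m + (q : ℤ) ^ (m + 1) := by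
    rw [show m + 2 = (m + 1) + 1 from rfl, br_succ, br_succ]; push_cast; ring
  -- total
  have t0 : ∑ H ∈ hys, (1 - e x H) = (q : ℤ) ^ (m + 1) := by
    rw [Finset.sum_sub_distrib, s0, s1 x hx, b1, b2]; ring
  -- first moment
  have t1 : ∀ w ∈ O, ∑ H ∈ hys, (1 - e x H) * (1 - e w H) = (q : ℤ) ^ m * (q - 1) := by
    intro w hw
    obtain ⟨hw1, hw2⟩ := hOpt w hw
    have h1 : ∀ H ∈ hys, (1 - e x H) * (1 - e w H) = 1 - e x H - e w H + e (x ⊔ w) H := by
      intro H _
      rw [← e_mul]; ring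
    rw [Finset.sum_congr rfl h1, Finset.sum_add_distrib, Finset.sum_sub_distrib,
      Finset.sum_sub_distrib, s0, s1 x hx, s1 w hw1, s2 _ (ln_sup hx hw1 (Ne.symm hw2)), b1, b2]
    ring
  have hk : (O.card : ℤ) * ((q : ℤ) ^ m * (q - 1)) = (q : ℤ) ^ (m + 1) * κ := by
    have h1 : ∑ H ∈ hys, (1 - e x H) * a H = (q : ℤ) ^ (m + 1) * κ := by
      rw [Finset.sum_congr rfl (fun H hH => (haκ H hH).1), ← Finset.sum_mul, t0]
    rw [← h1]
    simp only [ha, Finset.mul_sum]
    rw [Finset.sum_comm, Finset.sum_congr rfl t1, Finset.sum_const, nsmul_eq_mul]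
  have hqm : (q : ℤ) ^ m ≠ 0 := by positivity
  have hk1 : (q : ℤ) * κ = O.card * (q - 1) := by
    apply mul_left_cancel₀ hqm
    rw [pow_succ] at hk
    linarith
  -- second moment
  have t2 : ∀ w ∈ O, ∀ w' ∈ O, (q : ℤ) * ∑ H ∈ hys, (1 - e x H) * ((1 - e w H) * (1 - e w' H))
      = (q : ℤ) ^ m * (q * (if w = w' then 1 else 0) - (if w' ≤ x ⊔ w then 1 else 0)
        + (q - 1) ^ 2) := by
    intro w hw w' hw'
    obtain ⟨hw1, hw2⟩ := hOpt w hw
    obtain ⟨hw1', hw2'⟩ := hOpt w' hw'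
    by_cases heq : w = w'
    · subst heq
      have h1 : ∀ H ∈ hys, (1 - e x H) * ((1 - e w H) * (1 - e w H))
          = (1 - e x H) * (1 - e w H) := by
        intro H _
        have := e_sq w H
        linear_combination (1 - e x H) * this
      rw [Finset.sum_congr rfl h1, t1 w hw]
      simp only [if_true, le_sup_right]
      ring
    · have h1 : ∀ H ∈ hys, (1 - e x H) * ((1 - e w H) * (1 - e w' H))
          = 1 - e x H - e w H - e w' H + e (x ⊔ w) H + e (x ⊔ w') H + e (w ⊔ w') H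
            - e (x ⊔ w ⊔ w') H := by
        intro H _
        rw [← e_mul (x ⊔ w) w', ← e_mul x w, ← e_mul x w', ← e_mul w w']; ring
      rw [Finset.sum_congr rfl h1, Finset.sum_sub_distrib, Finset.sum_add_distrib,
        Finset.sum_add_distrib, Finset.sum_add_distrib, Finset.sum_sub_distrib,
        Finset.sum_sub_distrib, Finset.sum_sub_distrib, s0, s1 x hx, s1 w hw1, s1 w' hw1',
        s2 _ (ln_sup hx hw1 (Ne.symm hw2)), s2 _ (ln_sup hx hw1' (Ne.symm hw2')),
        s2 _ (ln_sup hw1 hw1' heq)]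
      by_cases hcol : w' ≤ x ⊔ w
      · rw [sup_eq_left.2 hcol, s2 _ (ln_sup hx hw1 (Ne.symm hw2)), b1, b2]
        simp only [heq, hcol, if_true, if_false]
        ring
      · have h3 : finrank F ↥(x ⊔ w ⊔ w') = 3 := by
          rw [finrank_sup_pt hw1' hcol, ln_sup hx hw1 (Ne.symm hw2)]
        have h4 : 3 ≤ finrank F V := h3 ▸ Submodule.finrank_le (x ⊔ w ⊔ w')
        obtain ⟨l, hl⟩ : ∃ l, m = l + 1 := ⟨m - 1, by omega⟩
        have h5 : ∑ H ∈ hys, e (x ⊔ w ⊔ w') H = br q l := by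
          rw [hS, h3, hm, hl]
          rfl
        have b0 : (br q m : ℤ) = br q l + (q : ℤ) ^ l := by
          rw [hl, br_succ]; push_cast; ring
        rw [h5, b1, b2, b0, hl]
        simp only [heq, hcol, if_false]
        ring
  -- counting collinear elements
  set c : Submodule F V → ℤ := fun w => ((O.filter (fun w' => w' ≤ x ⊔ w)).card : ℤ) with hc
  have hA : ∑ w ∈ O, c w = q * O.card := by
    have h1 : ∑ H ∈ hys, (1 - e x H) * (a H * a H) = (q : ℤ) ^ (m + 1) * (κ * κ) := by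
      rw [Finset.sum_congr rfl (fun H hH => (haκ H hH).2), ← Finset.sum_mul, t0]
    have h2 : ∑ H ∈ hys, (1 - e x H) * (a H * a H)
        = ∑ w ∈ O, ∑ w' ∈ O, ∑ H ∈ hys, (1 - e x H) * ((1 - e w H) * (1 - e w' H)) := by
      simp only [ha, Finset.sum_mul_sum]
      simp only [Finset.mul_sum]
      rw [Finset.sum_comm]
      refine Finset.sum_congr rfl fun w _ => ?_
      rw [Finset.sum_comm]
    have h3 : (q : ℤ) * ((q : ℤ) ^ (m + 1) * (κ * κ))
        = ∑ w ∈ O, ∑ w' ∈ O, (q : ℤ) ^ m * (q * (if w = w' then 1 else 0)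
          - (if w' ≤ x ⊔ w then 1 else 0) + (q - 1) ^ 2) := by
      rw [← h1, h2, Finset.mul_sum]
      refine Finset.sum_congr rfl fun w hw => ?_
      rw [Finset.mul_sum]
      exact Finset.sum_congr rfl fun w' hw' => t2 w hw w' hw'
    have h4 : ∀ w ∈ O, ∑ w' ∈ O, (q : ℤ) ^ m * (q * (if w = w' then 1 else 0)
          - (if w' ≤ x ⊔ w then 1 else 0) + (q - 1) ^ 2)
        = (q : ℤ) ^ m * (q - c w + O.card * (q - 1) ^ 2) := by
      intro w hw
      rw [← Finset.mul_sum, Finset.sum_add_distrib, Finset.sum_sub_distrib, ← Finset.mul_sum,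
        Finset.sum_ite_eq, if_pos hw, Finset.sum_const, nsmul_eq_mul]
      have : ∑ w' ∈ O, (if w' ≤ x ⊔ w then (1 : ℤ) else 0) = c w := by
        rw [Finset.sum_ite, Finset.sum_const_zero, add_zero, Finset.sum_const, nsmul_eq_mul,
          mul_one]
      rw [this]; ring
    rw [Finset.sum_congr rfl h4, ← Finset.mul_sum, Finset.sum_add_distrib,
      Finset.sum_sub_distrib, Finset.sum_const, Finset.sum_const, nsmul_eq_mul,
      nsmul_eq_mul] at h3
    have h5 : (q : ℤ) * ((q : ℤ) ^ (m + 1) * (κ * κ))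
        = (q : ℤ) ^ m * ((q * κ) * (q * κ)) := by ring
    rw [h5, hk1] at h3
    have h6 := mul_left_cancel₀ hqm h3
    linarith
  -- each c w is at most q
  have hline : ∀ w ∈ O, (Finset.univ.filter
      (fun w' : Submodule F V => Pt w' ∧ w' ≤ x ⊔ w ∧ w' ≠ x)).card = q := by
    intro w hw
    obtain ⟨hw1, hw2⟩ := hOpt w hw
    have h1 := card_pts_le (F := F) (x ⊔ w)
    rw [ln_sup hx hw1 (Ne.symm hw2), br_succ, br_one, pow_one] at h1
    have h2 : (Finset.univ.filter (fun w' : Submodule F V => Pt w' ∧ w' ≤ x ⊔ w)).card = 1 + q := by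
      rw [← h1, ← Nat.card_eq_finsetCard]
      refine Nat.card_congr (Equiv.subtypeEquivRight fun H => ?_)
      simp
    have h3 : (Finset.univ.filter (fun w' : Submodule F V => Pt w' ∧ w' ≤ x ⊔ w ∧ w' ≠ x))
        = (Finset.univ.filter (fun w' : Submodule F V => Pt w' ∧ w' ≤ x ⊔ w)).erase x := by
      ext u
      simp only [Finset.mem_filter, Finset.mem_univ, true_and, Finset.mem_erase]
      tauto
    rw [h3, Finset.card_erase_of_mem, h2]
    · omega
    · simp [hx]
  have hsub : ∀ w ∈ O, (O.filter (fun w' => w' ≤ x ⊔ w)) ⊆ (Finset.univ.filter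
      (fun w' : Submodule F V => Pt w' ∧ w' ≤ x ⊔ w ∧ w' ≠ x)) := by
    intro w hw u hu
    rw [Finset.mem_filter] at hu
    simp only [Finset.mem_filter, Finset.mem_univ, true_and]
    exact ⟨(hOpt u hu.1).1, hu.2, (hOpt u hu.1).2⟩
  have hcle : ∀ w ∈ O, c w ≤ q := by
    intro w hw
    simp only [hc]
    rw [← hline w hw]
    exact_mod_cast Finset.card_le_card (hsub w hw)
  have hceq : c y = q := by
    by_contra hne
    have hlt : c y < q := lt_of_le_of_ne (hcle y hyO) hne
    have : ∑ w ∈ O, c w < ∑ w ∈ O, (q : ℤ) :=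
      Finset.sum_lt_sum hcle ⟨y, hyO, hlt⟩
    rw [hA, Finset.sum_const, nsmul_eq_mul] at this
    linarith
  have hfin : (O.filter (fun w' => w' ≤ x ⊔ y)) = (Finset.univ.filter
      (fun w' : Submodule F V => Pt w' ∧ w' ≤ x ⊔ y ∧ w' ≠ x)) := by
    apply Finset.eq_of_subset_of_card_le (hsub y hyO)
    rw [hline y hyO]
    have : ((O.filter (fun w' => w' ≤ x ⊔ y)).card : ℤ) = q := hceq
    exact_mod_cast this.ge
  have hzmem : z ∈ O.filter (fun w' => w' ≤ x ⊔ y) := by
    rw [hfin]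
    simp only [Finset.mem_filter, Finset.mem_univ, true_and]
    exact ⟨hz, hzl, hzx⟩
  exact (hOmem z).1 (Finset.mem_filter.1 hzmem).1

end GL4
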